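import Pool.Agent.D0H61.AB.Stm

/-!
# Primes in `(e ^ (j - 1), e ^ j]`
-/

set_option autoImplicit false

namespace Pool.Agent.D0H31.AB

open Finset Filter Topology Pool.Agent.D0H61.AB

lemma theta_le (j : ℕ) : Chebyshev.theta (Real.exp j) ≤
    Chebyshev.theta (Real.exp ((j : ℝ) - 1)) + (PJ j).card * j := by
  classical
  set S := (Ioc 0 ⌊Real.exp j⌋₊).filter Nat.Prime with hS
  have h0 : Chebyshev.theta (Real.exp j) = ∑ p ∈ S, Real.log p := rfl
  rw [h0, ← sum_filter_add_sum_filter_not S (fun p : ℕ => (p : ℝ) ≤ Real.exp ((j : ℝ) - 1))]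
  refine add_le_add ?_ ?_
  · have h1 : Chebyshev.theta (Real.exp ((j : ℝ) - 1)) =
        ∑ p ∈ (Ioc 0 ⌊Real.exp ((j : ℝ) - 1)⌋₊).filter Nat.Prime, Real.log p := rfl
    rw [h1]
    apply sum_le_sum_of_subset_of_nonneg
    · intro p hp
      rw [mem_filter, hS, mem_filter, mem_Ioc] at hp
      rw [mem_filter, mem_Ioc]
      exact ⟨⟨hp.1.1.1, Nat.le_floor hp.2⟩, hp.1.2⟩
    · intro p hp _
      exact Real.log_natCast_nonneg p
  · have h2 : S.filter (fun p : ℕ => ¬ (p : ℝ) ≤ Real.exp ((j : ℝ) - 1)) ⊆ PJ j := by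
      intro p hp
      rw [mem_filter, hS, mem_filter, mem_Ioc] at hp
      rw [PJ, mem_filter, mem_Icc]
      exact ⟨⟨hp.1.1.1, hp.1.1.2⟩, hp.1.2, not_le.1 hp.2⟩
    have h3 : ∀ p ∈ S.filter (fun p : ℕ => ¬ (p : ℝ) ≤ Real.exp ((j : ℝ) - 1)),
        Real.log p ≤ j := by
      intro p hp
      rw [mem_filter, hS, mem_filter, mem_Ioc] at hp
      have h4 : (p : ℝ) ≤ Real.exp j := (Nat.le_floor_iff (Real.exp_pos _).le).1 hp.1.1.2
      have h5 : (0 : ℝ) < p := by exact_mod_cast hp.1.1.1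
      exact (Real.log_le_iff_le_exp h5).2 h4
    calc ∑ p ∈ S.filter (fun p : ℕ => ¬ (p : ℝ) ≤ Real.exp ((j : ℝ) - 1)), Real.log p
        ≤ (S.filter (fun p : ℕ => ¬ (p : ℝ) ≤ Real.exp ((j : ℝ) - 1))).card * (j : ℝ) := by
          rw [← nsmul_eq_mul]
          exact sum_le_card_nsmul _ _ _ h3
      _ ≤ (PJ j).card * j :=
          mul_le_mul_of_nonneg_right (by exact_mod_cast card_le_card h2) (Nat.cast_nonneg j)

lemma eventually_small : ∀ᶠ x : ℝ in atTop, 4 * x * Real.exp (x / 2) ≤ 1 / 20 * Real.exp x := by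
  have h1 : Tendsto (fun u : ℝ => u ^ 1 * Real.exp (-u)) atTop (𝓝 0) :=
    Real.tendsto_pow_mul_exp_neg_atTop_nhds_zero 1
  have h2 : Tendsto (fun x : ℝ => x / 2) atTop atTop := tendsto_id.atTop_div_const (by norm_num)
  have h3 := h1.comp h2
  have h4 : ∀ᶠ x : ℝ in atTop, (x / 2) ^ 1 * Real.exp (-(x / 2)) ≤ 1 / 160 := by
    have := h3.eventually (gt_mem_nhds (show (0 : ℝ) < 1 / 160 by norm_num))
    filter_upwards [this] with x hx
    exact hx.le
  filter_upwards [h4] with x hx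
  rw [pow_one] at hx
  have e1 : Real.exp x = Real.exp (x / 2) * Real.exp (x / 2) := by
    rw [← Real.exp_add]
    congr 1
    ring
  have e2 : Real.exp (-(x / 2)) * Real.exp (x / 2) = 1 := by
    rw [← Real.exp_add, neg_add_cancel, Real.exp_zero]
  have h5 : 0 < Real.exp (x / 2) := Real.exp_pos _
  have h6 : x / 2 ≤ 1 / 160 * Real.exp (x / 2) := by
    calc x / 2 = x / 2 * (Real.exp (-(x / 2)) * Real.exp (x / 2)) := by rw [e2, mul_one]
      _ = (x / 2 * Real.exp (-(x / 2))) * Real.exp (x / 2) := by ring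
      _ ≤ 1 / 160 * Real.exp (x / 2) := mul_le_mul_of_nonneg_right hx h5.le
  rw [e1]
  nlinarith [mul_le_mul_of_nonneg_right h6 h5.le]

theorem t_CHEB : S_CHEB := by
  obtain ⟨x₀, hx₀⟩ := eventually_atTop.1 eventually_small
  refine ⟨1 / 10, by norm_num, max 3 ⌈x₀⌉₊, by
    exact le_trans (by norm_num) (le_max_left 3 _), fun j hj => ?_⟩
  have hj3 : 3 ≤ j := (le_max_left _ _).trans hj
  have hjx : x₀ ≤ j := (Nat.le_ceil x₀).trans (by exact_mod_cast (le_max_right 3 _).trans hj)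
  have hj0 : (0 : ℝ) < j := by exact_mod_cast (by omega : 0 < j)
  have hj3' : (3 : ℝ) ≤ j := by exact_mod_cast hj3
  have hsm := hx₀ j hjx
  set y := Real.exp j with hy
  have hy1 : 1 ≤ y := Real.one_le_exp hj0.le
  have h1 := Chebyshev.theta_ge' hy1
  have h2 := Chebyshev.theta_le_log4_mul_x (Real.exp_pos ((j : ℝ) - 1)).le
  have h3 := theta_le j
  rw [← hy] at h3
  have hlog : Real.log y = j := Real.log_exp _
  have hsq : √y = Real.exp ((j : ℝ) / 2) := (Real.exp_half _).symm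
  have hl2 : Real.log (y + 2) ≤ j + 2 := by
    rw [Real.log_le_iff_le_exp (by linarith), Real.exp_add, ← hy]
    have h4 := Real.add_one_le_exp (2 : ℝ)
    nlinarith
  have hz : Real.exp ((j : ℝ) - 1) = y / Real.exp 1 := by rw [Real.exp_sub]
  have hlog4 : Real.log 4 = 2 * Real.log 2 := by
    rw [show (4 : ℝ) = 2 ^ 2 by norm_num, Real.log_pow]
    norm_num
  have he : (2.7 : ℝ) < Real.exp 1 := by
    have := Real.exp_one_gt_d9
    linarith
  have hz2 : y / Real.exp 1 ≤ y / 2.7 :=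
    div_le_div_of_nonneg_left (by linarith) (by norm_num) he.le
  have hl := Real.log_two_gt_d9
  have hl' := Real.log_two_lt_d9
  have hexp1 : 1 ≤ Real.exp ((j : ℝ) / 2) := Real.one_le_exp (by positivity)
  rw [hlog, hsq] at h1
  rw [hz, hlog4] at h2
  rw [hz] at h3
  -- lower bound for the difference
  have h5 : (0.17 : ℝ) * y ≤ y * Real.log 2 - 2 * Real.log 2 * (y / 2.7) := by
    have e1 : y * Real.log 2 - 2 * Real.log 2 * (y / 2.7) = y * (Real.log 2 * (7 / 27)) := by ring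
    rw [e1, mul_comm (0.17 : ℝ) y]
    apply mul_le_mul_of_nonneg_left _ (by linarith)
    linarith
  have h6 : 2 * Real.log 2 * (y / Real.exp 1) ≤ 2 * Real.log 2 * (y / 2.7) :=
    mul_le_mul_of_nonneg_left hz2 (by linarith)
  have h7 : Real.log 2 + (j + 2) + 2 * Real.exp ((j : ℝ) / 2) * j ≤
      4 * j * Real.exp ((j : ℝ) / 2) := by
    have h8 : (j : ℝ) + 3 ≤ 2 * j * Real.exp ((j : ℝ) / 2) := by nlinarith
    linarith
  have h9 : 1 / 10 * y ≤ (PJ j).card * (j : ℝ) := by linarith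
  rw [div_le_iff₀ hj0]
  exact h9

end Pool.Agent.D0H31.AB
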