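import Pool.Agent.D0H61.AB.Stm2
import Pool.Agent.D0H25.AB.Loc

/-!
Module LOC2 of the project AB (helper61, MP_4ab349_nt): the sharp version of LOC. The proof follows
`Pool.Agent.D0H25.AB.t_LOC` (helper25) with `n` replaced by `e ^ l / l`.
-/

set_option autoImplicit false

namespace Pool.Agent.D0H31.AB

open Filter Topology MeasureTheory Finset
open Pool.Agent.D0H61.AB
open Pool.Agent.D0H25.AB (rad_pos rad_mul_le rad_le rad_pow_le mass pf_sub grow)

/-- the choice of `η` -/
theorem exists_eta {ε : ℝ} (hε : 0 < ε) : ∃ η : ℝ, 0 < η ∧ η ≤ 1 / 4 ∧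
    (2 * Real.sqrt 2 - ε) * Real.sqrt ((1 + 3 * η) / (2 * (1 - η))) ≤ 2 - 3 * η := by
  have hc : ContinuousAt (fun η : ℝ => (2 - 3 * η) -
      (2 * Real.sqrt 2 - ε) * Real.sqrt ((1 + 3 * η) / (2 * (1 - η)))) 0 := by
    apply ContinuousAt.sub (by fun_prop)
    apply ContinuousAt.mul continuousAt_const
    apply Real.continuous_sqrt.continuousAt.comp
    apply ContinuousAt.div (by fun_prop) (by fun_prop)
    norm_num
  have h0 : 0 < (2 - 3 * (0 : ℝ)) -
      (2 * Real.sqrt 2 - ε) * Real.sqrt ((1 + 3 * 0) / (2 * (1 - 0))) := by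
    have h2 : Real.sqrt 2 * Real.sqrt 2 = 2 := Real.mul_self_sqrt (by norm_num)
    have h3 : Real.sqrt ((1 + 3 * 0) / (2 * (1 - 0))) = (Real.sqrt 2)⁻¹ := by
      rw [← Real.sqrt_inv]
      norm_num
    have h4 : 0 < Real.sqrt 2 := Real.sqrt_pos.2 (by norm_num)
    rw [h3]
    have h5 : Real.sqrt 2 * (Real.sqrt 2)⁻¹ = 1 := mul_inv_cancel₀ h4.ne'
    have h6 : 0 < ε * (Real.sqrt 2)⁻¹ := by positivity
    nlinarith
  have h1 := hc.eventually (lt_mem_nhds h0)
  obtain ⟨δ, hδ, h2⟩ := Metric.eventually_nhds_iff.1 h1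
  refine ⟨min (δ / 2) (1 / 4), by positivity, min_le_right _ _, ?_⟩
  have h3 : dist (min (δ / 2) (1 / 4)) 0 < δ := by
    rw [Real.dist_eq, sub_zero, abs_of_pos (by positivity)]
    exact (min_le_left _ _).trans_lt (by linarith)
  have h4 := h2 h3
  linarith

/-- `x / log x` is increasing on `[e, ∞)` -/
theorem div_log_mono {x y : ℝ} (hx : Real.exp 1 ≤ x) (hxy : x ≤ y) :
    x / Real.log x ≤ y / Real.log y := by
  have hx0 : 0 < x := (Real.exp_pos 1).trans_le hx
  have hy0 : 0 < y := hx0.trans_le hxy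
  have hlx : 1 ≤ Real.log x := (Real.le_log_iff_exp_le hx0).2 hx
  have hly : 1 ≤ Real.log y := hlx.trans (Real.log_le_log hx0 hxy)
  have h := Real.log_div_self_antitoneOn (a := x) (b := y) hx (hx.trans hxy) hxy
  rw [div_le_div_iff₀ (by linarith) (by linarith)]
  have h' : Real.log y / y ≤ Real.log x / x := h
  rw [div_le_div_iff₀ hy0 hx0] at h'
  linarith

theorem V_le2 {l c η q : ℝ} (hη : 0 < η) (hη1 : η ≤ 1 / 4) (hl : 0 < l)
    (hq : q = Real.exp l / l) (hq44 : 44 ≤ q)
    (hlog : Real.log l ≤ 2 * η * l)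
    (h1 : q / 2 ≤ Real.log c)
    (h2 : Real.log c ≤ (1 + 3 * η) * (Real.exp (2 * l) / l)) :
    V c ≤ Real.sqrt ((1 + 3 * η) / (2 * (1 - η))) * q := by
  have hQ : 0 < Real.exp (2 * l) / l := by positivity
  have hlQ : Real.log (Real.exp (2 * l) / l) = 2 * l - Real.log l := by
    rw [Real.log_div (Real.exp_pos _).ne' hl.ne', Real.log_exp]
  have he := Real.exp_one_lt_d9
  have h3 : Real.exp 1 ≤ Real.log c := by linarith
  have h4 := div_log_mono h3 h2
  have h5 : 2 * (1 - η) * l ≤ Real.log ((1 + 3 * η) * (Real.exp (2 * l) / l)) := by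
    have : Real.log (Real.exp (2 * l) / l) ≤ Real.log ((1 + 3 * η) * (Real.exp (2 * l) / l)) := by
      apply Real.log_le_log hQ
      nlinarith
    rw [hlQ] at this
    linarith
  have h6 : 0 < 2 * (1 - η) * l := by
    have : 0 < 1 - η := by linarith
    positivity
  unfold V
  have h7 : Real.log c / Real.log (Real.log c) ≤ (1 + 3 * η) / (2 * (1 - η)) * q ^ 2 := by
    calc Real.log c / Real.log (Real.log c)
        ≤ (1 + 3 * η) * (Real.exp (2 * l) / l) /
          Real.log ((1 + 3 * η) * (Real.exp (2 * l) / l)) := h4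
      _ ≤ (1 + 3 * η) * (Real.exp (2 * l) / l) / (2 * (1 - η) * l) :=
          div_le_div_of_nonneg_left (by positivity) h6 h5
      _ = (1 + 3 * η) / (2 * (1 - η)) * q ^ 2 := by
          have h8 : Real.exp (2 * l) = Real.exp l * Real.exp l := by
            rw [← Real.exp_add]
            congr 1
            ring
          have h9 : (1 - η) ≠ 0 := by linarith
          rw [hq, h8]
          field_simp
  calc Real.sqrt (Real.log c / Real.log (Real.log c))
      ≤ Real.sqrt ((1 + 3 * η) / (2 * (1 - η)) * q ^ 2) := Real.sqrt_le_sqrt h7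
    _ = Real.sqrt ((1 + 3 * η) / (2 * (1 - η))) * q := by
        rw [Real.sqrt_mul' _ (sq_nonneg q), Real.sqrt_sq (by linarith)]

/-- Module LOC2. -/
theorem t_LOC2 : S_FAM2 → S_NEAR → S_OVL → S_FST → S_PZ → S_LOC2 := by
  intro hFAM hNEAR hOVL hFST hPZ ε hε
  obtain ⟨η, hη, hη4, hηε⟩ := exists_eta hε
  obtain ⟨l0, hl0, hfam⟩ := hFAM η hη
  obtain ⟨l1, hnear⟩ := hNEAR
  obtain ⟨C, hC, hovl⟩ := hOVL
  refine ⟨128 * C, by positivity, ?_⟩
  intro s x y M hx hxy hy1
  have hw : 0 < y - x := sub_pos.2 hxy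
  set N0 : ℝ := 44 + 272 / (y - x) + 4 * (M : ℝ) + 8 * (|s| + 2) / x with hN0
  set K : ℝ := x + 2 + |s| with hK
  have hKpos : 0 < K := by positivity
  -- the choice of l
  have T1 : Tendsto (fun l : ℕ => Real.exp (l : ℝ) / (l : ℝ)) atTop atTop := by
    have := (Real.tendsto_exp_div_pow_atTop 1).comp (tendsto_natCast_atTop_atTop (R := ℝ))
    simpa [Function.comp_def] using this
  have T2 : Tendsto (fun l : ℕ => Real.exp ((l : ℝ) / 2)) atTop atTop :=
    Real.tendsto_exp_atTop.comp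
      ((tendsto_natCast_atTop_atTop (R := ℝ)).atTop_div_const (by norm_num : (0 : ℝ) < 2))
  have T3 : ∀ᶠ l : ℕ in atTop, Real.log (l : ℝ) ≤ 2 * η * l := by
    have h1 := (Real.isLittleO_log_id_atTop.comp_tendsto (tendsto_natCast_atTop_atTop (R := ℝ))).bound
      (show (0 : ℝ) < 2 * η by positivity)
    filter_upwards [h1] with l hl
    simp only [Function.comp_def, id_eq, Real.norm_eq_abs] at hl
    have h2 : |(l : ℝ)| = l := abs_of_nonneg (Nat.cast_nonneg l)
    rw [h2] at hl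
    exact (le_abs_self _).trans hl
  obtain ⟨l, ⟨⟨⟨⟨hla, hlb⟩, hlc⟩, hld⟩, hle⟩, hlf⟩ :=
    (((((eventually_ge_atTop (max (max l0 l1) 8)).and
      (T1.eventually_ge_atTop N0)).and (T1.eventually_ge_atTop (Real.log (3 * K) / η))).and
      (T2.eventually_ge_atTop (16 / η))).and T3).and (T1.eventually_ge_atTop (16 / η)) |>.exists
  have hl0' : l0 ≤ l := le_trans (le_trans (le_max_left _ _) (le_max_left _ _)) hla
  have hl1' : l1 ≤ l := le_trans (le_trans (le_max_right _ _) (le_max_left _ _)) hla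
  have hl8 : 8 ≤ l := le_trans (le_max_right _ _) hla
  have hl8' : (8 : ℝ) ≤ l := by exact_mod_cast hl8
  have hlpos : (0 : ℝ) < l := by linarith
  obtain ⟨B, n, Z, hn2, hZ, hcard, hcard2, hB⟩ := hfam l hl0'
  set q : ℝ := Real.exp (l : ℝ) / l with hq
  obtain ⟨h44, hg1, hg2, hg3⟩ := grow (M := M) (s := s) hw hx hlb
  have hqpos : (0 : ℝ) < q := by linarith
  have hq16 : 16 ≤ η * q := by
    rw [div_le_iff₀ hη] at hlf
    linarith
  -- the choice of k
  set β : ℝ := (B.card : ℝ) * Real.exp (-(η * q)) with hβ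
  have hβZ : Z * Real.exp ((2 - 2 * η) * q) ≤ β := by
    have h1 : Z * Real.exp ((2 - η) * q) * Real.exp (-(η * q)) ≤
        B.card * Real.exp (-(η * q)) := by
      gcongr
    calc Z * Real.exp ((2 - 2 * η) * q) = Z * Real.exp ((2 - η) * q) * Real.exp (-(η * q)) := by
          rw [mul_assoc, ← Real.exp_add]
          congr 2
          ring
      _ ≤ β := h1
  have hβe' : Real.exp ((2 - 2 * η) * q) ≤ β := by
    refine le_trans ?_ hβZ
    exact le_mul_of_one_le_left (Real.exp_pos _).le hZ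
  have hβe : Real.exp (q / 2) ≤ β := by
    refine le_trans (Real.exp_le_exp.2 ?_) hβe'
    nlinarith
  have hen : 23 ≤ Real.exp (q / 2) := by
    have := Real.add_one_le_exp (q / 2)
    linarith
  obtain ⟨k, hk1, hk2⟩ := exists_nat_pow_near (x := β) (y := 2) (by linarith) (by norm_num)
  have hk3 : 3 ≤ k := by
    by_contra h
    have h4 : k + 1 ≤ 3 := by omega
    have h5 : (2 : ℝ) ^ (k + 1) ≤ 2 ^ 3 := pow_le_pow_right₀ (by norm_num) h4
    norm_num at h5
    linarith
  set P : ℝ := 2 ^ k with hP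
  have hPpos : 0 < P := by positivity
  have hP2 : β < 2 * P := by
    rw [pow_succ] at hk2
    linarith
  have hPe : Real.exp (q / 2) / 2 ≤ P := by linarith
  -- the choice of t
  obtain ⟨t0, ht1, ht2⟩ := exists_nat_pow_near (x := P * P) (y := 3) (by nlinarith) (by norm_num)
  obtain ⟨t, ht⟩ : ∃ t, t = t0 + 1 := ⟨_, rfl⟩
  rw [← ht] at ht2
  have ht3 : (3 : ℝ) ^ t ≤ 3 * (P * P) := by
    rw [ht, pow_succ]
    linarith
  have hPP : Real.exp q / 4 ≤ P * P := by
    have h1 : Real.exp q = Real.exp (q / 2) * Real.exp (q / 2) := by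
      rw [← Real.exp_add]
      congr 1
      ring
    rw [h1]
    nlinarith [Real.exp_pos (q / 2)]
  have h3t : Real.exp q / 4 ≤ (3 : ℝ) ^ t := by linarith
  have hwP : 16 * (q + 2) ≤ (y - x) * P := by
    have : (y - x) * (Real.exp (q / 2) / 2) ≤ (y - x) * P := by gcongr
    linarith
  -- the exponential of l
  have hel : 9 ≤ Real.exp (l : ℝ) := by
    have := Real.add_one_le_exp (l : ℝ)
    linarith
  have hb0 : ∀ b ∈ B, 0 < b := fun b hb => (hB b hb).1
  have hbcard : ∀ b ∈ B, ((3 ^ t * b).primeFactors.card : ℝ) ≤ q + 1 := by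
    intro b hb
    have h1 := Finset.card_le_card (pf_sub t (hb0 b hb).ne')
    have h2 := Finset.card_insert_le 3 b.primeFactors
    have h3 := (hB b hb).2.1
    have : (3 ^ t * b).primeFactors.card ≤ n + 1 := by omega
    have h4 : ((3 ^ t * b).primeFactors.card : ℝ) ≤ (n : ℝ) + 1 := by exact_mod_cast this
    linarith
  have h3b : ∀ b ∈ B, (3 : ℝ) ^ t ≤ ((3 ^ t * b : ℕ) : ℝ) := by
    intro b hb
    push_cast
    have : (1 : ℝ) ≤ b := by exact_mod_cast hb0 b hb
    exact le_mul_of_one_le_right (by positivity) this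
  have hlarge : ∀ b ∈ B, ∀ p ∈ b.primeFactors, Real.exp (l : ℝ) < p := fun b hb p hp =>
    ((hB b hb).2.2.1 p hp).1
  have hodd : ∀ b ∈ B, ¬ 2 ∣ 3 ^ t * b := by
    intro b hb h
    rcases (Nat.prime_two.dvd_mul).1 h with h1 | h1
    · have := Nat.prime_two.dvd_of_dvd_pow h1
      omega
    · have h2 := hlarge b hb 2 (Nat.mem_primeFactors.2 ⟨Nat.prime_two, h1, (hb0 b hb).ne'⟩)
      push_cast at h2
      linarith
  have hq8 : q ≤ Real.exp (l : ℝ) / 6 := by
    rw [hq]
    exact div_le_div_of_nonneg_left (Real.exp_pos _).le (by norm_num) (by linarith)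
  have hsum : ∀ b ∈ B, ∑ p ∈ (3 ^ t * b).primeFactors, 1 / (p : ℝ) ≤ 1 / 2 := by
    intro b hb
    have h3 : 3 ∉ b.primeFactors := by
      intro h
      have h2 := hlarge b hb 3 h
      push_cast at h2
      linarith
    refine (Finset.sum_le_sum_of_subset_of_nonneg (pf_sub t (hb0 b hb).ne')
      fun p _ _ => by positivity).trans ?_
    rw [Finset.sum_insert h3]
    have h4 : ∑ p ∈ b.primeFactors, 1 / (p : ℝ) ≤ b.primeFactors.card • (1 / Real.exp (l : ℝ)) := by
      refine Finset.sum_le_card_nsmul _ _ _ fun p hp => ?_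
      exact one_div_le_one_div_of_le (Real.exp_pos _) (hlarge b hb p hp).le
    rw [nsmul_eq_mul] at h4
    have h5 : (b.primeFactors.card : ℝ) ≤ Real.exp (l : ℝ) / 6 := by
      have h6 : (b.primeFactors.card : ℝ) ≤ (n : ℝ) := by exact_mod_cast (hB b hb).2.1
      linarith
    have h6 : (b.primeFactors.card : ℝ) * (1 / Real.exp (l : ℝ)) ≤ 1 / 6 := by
      rw [mul_one_div, div_le_iff₀ (Real.exp_pos _)]
      linarith
    push_cast
    linarith
  have hs : ∀ b ∈ B, |s| + 2 ≤ x * ((3 ^ t * b : ℕ) : ℝ) := by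
    intro b hb
    have h1 : x * (Real.exp q / 4) ≤ x * ((3 ^ t * b : ℕ) : ℝ) := by
      have := h3b b hb
      gcongr
      linarith
    linarith
  have hww : ∀ b ∈ B, 2 ^ k * (16 * (((3 ^ t * b).primeFactors.card : ℝ) + 1)) ≤
      (y - x) * ((3 ^ t * b : ℕ) : ℝ) := by
    intro b hb
    have h1 := hbcard b hb
    have h2 : P * P ≤ ((3 ^ t * b : ℕ) : ℝ) := by
      have := h3b b hb
      linarith
    calc 2 ^ k * (16 * (((3 ^ t * b).primeFactors.card : ℝ) + 1))
        ≤ P * (16 * (q + 2)) := mul_le_mul_of_nonneg_left (by linarith) hPpos.le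
      _ ≤ P * ((y - x) * P) := by gcongr
      _ = (y - x) * (P * P) := by ring
      _ ≤ _ := by gcongr
  have hg : (2 : ℝ) ^ k ≤ (y - x) * 3 ^ t := by
    have h1 : 1 ≤ (y - x) * P := by linarith
    calc (2 : ℝ) ^ k = P * 1 := by rw [mul_one]
      _ ≤ P * ((y - x) * P) := by gcongr
      _ = (y - x) * (P * P) := by ring
      _ ≤ _ := by
        gcongr
  have hE := hnear l hl1' n B fun b hb => ⟨(hB b hb).1, (hB b hb).2.1, (hB b hb).2.2.1⟩
  have hsmall : Real.exp (-(l : ℝ) / 2) ≤ η / 16 := by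
    rw [show -(l : ℝ) / 2 = -((l : ℝ) / 2) by ring, Real.exp_neg]
    rw [inv_le_comm₀ (Real.exp_pos _) (by positivity)]
    calc (η / 16)⁻¹ = 16 / η := by rw [inv_div]
      _ ≤ _ := hld
  have hEB : Real.exp (8 * n * Real.exp (-(l : ℝ) / 2) + 8) ≤ (B.card : ℝ) / 2 ^ k := by
    have h1 : Real.exp (8 * n * Real.exp (-(l : ℝ) / 2) + 8) ≤ Real.exp (η * q) := by
      apply Real.exp_le_exp.2
      have h2 : 8 * (n : ℝ) * Real.exp (-(l : ℝ) / 2) ≤ 8 * q * (η / 16) := by gcongr
      linarith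
    refine h1.trans ?_
    rw [le_div_iff₀ hPpos]
    have h2 : Real.exp (η * q) * P ≤ Real.exp (η * q) * β := by gcongr
    refine h2.trans (le_of_eq ?_)
    rw [hβ]
    have h3 : Real.exp (η * q) * Real.exp (-(η * q)) = 1 := by
      rw [← Real.exp_add]
      simp
    linear_combination (B.card : ℝ) * h3
  have hBne : B.Nonempty := by
    rw [← Finset.card_pos]
    have : (0 : ℝ) < B.card := lt_of_lt_of_le (by positivity) hcard
    exact_mod_cast this
  refine (mass hC hovl hFST hPZ B k t s x y _ hk3 hx hxy hb0 hodd hsum hs hww hg hE hEB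
    hBne).trans (measure_mono ?_)
  rintro α ⟨hα, hα'⟩
  refine ⟨hα, ?_⟩
  simp only [Set.mem_iUnion, exists_prop] at hα'
  obtain ⟨b, hb, c, hc0, ⟨r, hr⟩, hcop, habs⟩ := hα'
  have hbt0 : 0 < 3 ^ t * b := Nat.mul_pos (by positivity) (hb0 b hb)
  have hbt := h3b b hb
  have hMb : M ≤ 3 ^ t * b := by
    have : (M : ℝ) ≤ ((3 ^ t * b : ℕ) : ℝ) := by linarith
    exact_mod_cast this
  refine ⟨3 ^ t * b, c, hMb, hbt0, hc0, hcop, habs, ?_⟩
  obtain ⟨_, _, _, hrad, hbup⟩ := hB b hb
  have habs' := abs_le.1 habs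
  have hcpos : (0 : ℝ) < c := by exact_mod_cast hc0
  have hr0 : 0 < r := by
    rcases Nat.eq_zero_or_pos r with h | h
    · rw [h, mul_zero] at hr
      omega
    · exact h
  -- the radical
  have hR : (rad (3 ^ t * b * c) : ℝ) ≤ 12 * c * Real.exp (-((2 - 2 * η) * q)) := by
    have h1 : rad (3 ^ t * b * c) ≤ 3 * rad b * (2 * r) := by
      refine (rad_mul_le hbt0.ne' hc0.ne').trans (Nat.mul_le_mul ?_ ?_)
      · refine (rad_mul_le (by positivity) (hb0 b hb).ne').trans ?_
        exact Nat.mul_le_mul_right _ (rad_pow_le Nat.prime_three t)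
      · rw [hr]
        refine (rad_mul_le (by positivity) hr0.ne').trans ?_
        exact Nat.mul_le_mul (rad_pow_le Nat.prime_two k) (rad_le hr0)
    have h2 : (rad (3 ^ t * b * c) : ℝ) ≤ 3 * rad b * (2 * r) := by exact_mod_cast h1
    have h3 : (c : ℝ) = P * r := by
      rw [hr, hP]
      push_cast
      ring
    have h4 : Z ≤ 2 * P * Real.exp (-((2 - 2 * η) * q)) := by
      have h5 : Real.exp ((2 - 2 * η) * q) * Real.exp (-((2 - 2 * η) * q)) = 1 := by
        rw [← Real.exp_add]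
        simp
      calc Z = Z * Real.exp ((2 - 2 * η) * q) * Real.exp (-((2 - 2 * η) * q)) := by
            rw [mul_assoc, h5, mul_one]
        _ ≤ 2 * P * Real.exp (-((2 - 2 * η) * q)) := by
            have : Z * Real.exp ((2 - 2 * η) * q) ≤ 2 * P := by linarith
            gcongr
    have hr' : (0 : ℝ) ≤ r := by positivity
    calc (rad (3 ^ t * b * c) : ℝ) ≤ 3 * rad b * (2 * r) := h2
      _ ≤ 3 * Z * (2 * r) := by gcongr
      _ ≤ 3 * (2 * P * Real.exp (-((2 - 2 * η) * q))) * (2 * r) := by gcongr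
      _ = 12 * c * Real.exp (-((2 - 2 * η) * q)) := by
          rw [h3]
          ring
  have hRpos : (0 : ℝ) < (rad (3 ^ t * b * c) : ℝ) := by exact_mod_cast rad_pos _
  have hlog : (2 - 3 * η) * q ≤ Real.log ((c : ℝ) / (rad (3 ^ t * b * c) : ℝ)) := by
    have h1 : Real.exp ((2 - 2 * η) * q) / 12 ≤ (c : ℝ) / (rad (3 ^ t * b * c) : ℝ) := by
      rw [le_div_iff₀ hRpos]
      calc Real.exp ((2 - 2 * η) * q) / 12 * (rad (3 ^ t * b * c) : ℝ)
          ≤ Real.exp ((2 - 2 * η) * q) / 12 * (12 * c * Real.exp (-((2 - 2 * η) * q))) := by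
            gcongr
        _ = c * (Real.exp ((2 - 2 * η) * q) * Real.exp (-((2 - 2 * η) * q))) := by ring
        _ = c := by
            rw [← Real.exp_add]
            simp
    have h2 := Real.log_le_log (by positivity) h1
    rw [Real.log_div (Real.exp_pos _).ne' (by norm_num), Real.log_exp] at h2
    have h3 := Real.log_le_sub_one_of_pos (show (0 : ℝ) < 12 by norm_num)
    linarith
  -- the size of c
  have hαx : x ≤ α := hα.1
  have hαy : α ≤ x + 1 := hα.2.trans hy1
  have hb1 : (1 : ℝ) ≤ ((3 ^ t * b : ℕ) : ℝ) := by exact_mod_cast hbt0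
  have hclow : Real.exp (q / 2) ≤ c := by
    have h1 : x * (Real.exp q / 4) ≤ α * ((3 ^ t * b : ℕ) : ℝ) := by
      have : Real.exp q / 4 ≤ ((3 ^ t * b : ℕ) : ℝ) := by linarith
      exact mul_le_mul hαx this (by positivity) (hx.le.trans hαx)
    have h2 := neg_abs_le s
    linarith [habs'.2]
  have hcup : (c : ℝ) ≤ K * ((3 ^ t * b : ℕ) : ℝ) := by
    have h1 : α * ((3 ^ t * b : ℕ) : ℝ) ≤ (x + 1) * ((3 ^ t * b : ℕ) : ℝ) := by gcongr
    have h2 := le_abs_self s
    have h3 : (1 + |s|) ≤ (1 + |s|) * ((3 ^ t * b : ℕ) : ℝ) :=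
      le_mul_of_one_le_right (by positivity) hb1
    rw [hK]
    linarith [habs'.1]
  set Q : ℝ := Real.exp (2 * l) / l with hQ
  have hQpos : 0 < Q := by positivity
  have hPQ : P ≤ Real.exp (η * Q) := by
    have h4 : Real.exp (-(η * q)) ≤ 1 := by
      rw [Real.exp_le_one_iff]
      linarith
    calc P ≤ β := hk1
      _ ≤ B.card * 1 := by
          rw [hβ]
          gcongr
      _ = B.card := mul_one _
      _ ≤ _ := hcard2
  have hL2 : Real.log c ≤ (1 + 3 * η) * Q := by
    have h1 : (c : ℝ) ≤ 3 * K * Real.exp ((1 + 2 * η) * Q) := by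
      have h2 : ((3 ^ t * b : ℕ) : ℝ) ≤
          3 * (Real.exp (η * Q) * Real.exp (η * Q)) * Real.exp Q := by
        push_cast
        have h3 : (3 : ℝ) ^ t ≤ 3 * (Real.exp (η * Q) * Real.exp (η * Q)) := by
          refine ht3.trans ?_
          gcongr
        gcongr
      have h3 : Real.exp ((1 + 2 * η) * Q) =
          Real.exp (η * Q) * Real.exp (η * Q) * Real.exp Q := by
        rw [← Real.exp_add, ← Real.exp_add]
        congr 1
        ring
      rw [h3]
      calc (c : ℝ) ≤ K * ((3 ^ t * b : ℕ) : ℝ) := hcup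
        _ ≤ K * (3 * (Real.exp (η * Q) * Real.exp (η * Q)) * Real.exp Q) := by gcongr
        _ = _ := by ring
    have h2 := Real.log_le_log hcpos h1
    rw [Real.log_mul (by positivity) (Real.exp_pos _).ne', Real.log_exp] at h2
    have h3 : q ≤ Q := by
      rw [hQ, hq]
      have : Real.exp (l : ℝ) ≤ Real.exp (2 * l) := Real.exp_le_exp.2 (by linarith)
      gcongr
    rw [div_le_iff₀ hη] at hlc
    nlinarith
  have hL1 : q / 2 ≤ Real.log c := by
    have h1 := Real.log_le_log (Real.exp_pos _) hclow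
    rwa [Real.log_exp] at h1
  have hV : V c ≤ Real.sqrt ((1 + 3 * η) / (2 * (1 - η))) * q :=
    V_le2 hη hη4 hlpos hq h44 hle hL1 hL2
  have hV0 : 0 ≤ V c := Real.sqrt_nonneg _
  refine le_trans ?_ hlog
  rcases le_or_gt 0 (2 * Real.sqrt 2 - ε) with h | h
  · calc (2 * Real.sqrt 2 - ε) * V c
        ≤ (2 * Real.sqrt 2 - ε) * (Real.sqrt ((1 + 3 * η) / (2 * (1 - η))) * q) := by gcongr
      _ = ((2 * Real.sqrt 2 - ε) * Real.sqrt ((1 + 3 * η) / (2 * (1 - η)))) * q := by ring
      _ ≤ (2 - 3 * η) * q := by gcongr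
  · have h1 : (2 * Real.sqrt 2 - ε) * V c ≤ 0 := mul_nonpos_of_nonpos_of_nonneg h.le hV0
    have h2 : 0 ≤ (2 - 3 * η) * q := by
      apply mul_nonneg _ hqpos.le
      linarith
    linarith

end Pool.Agent.D0H31.AB
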