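import Pool.Agent.D0H61.AB.Stm2
import Pool.Agent.H442R2.EHI.PntErr

/-!
# Primes in `(e ^ u, e ^ (u + η)]` from the prime number theorem
-/

set_option autoImplicit false

namespace Pool.Agent.D0H31.AB

open Finset Filter Topology Pool.Agent.D0H61.AB

lemma theta_le_PB (u η : ℝ) (h0u : 0 ≤ u + η) : Chebyshev.theta (Real.exp (u + η)) ≤
    Chebyshev.theta (Real.exp u) + (PB u η).card * (u + η) := by
  classical
  set S := (Ioc 0 ⌊Real.exp (u + η)⌋₊).filter Nat.Prime with hS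
  have h0 : Chebyshev.theta (Real.exp (u + η)) = ∑ p ∈ S, Real.log p := rfl
  rw [h0, ← sum_filter_add_sum_filter_not S (fun p : ℕ => (p : ℝ) ≤ Real.exp u)]
  refine add_le_add ?_ ?_
  · have h1 : Chebyshev.theta (Real.exp u) =
        ∑ p ∈ (Ioc 0 ⌊Real.exp u⌋₊).filter Nat.Prime, Real.log p := rfl
    rw [h1]
    apply sum_le_sum_of_subset_of_nonneg
    · intro p hp
      rw [mem_filter, hS, mem_filter, mem_Ioc] at hp
      rw [mem_filter, mem_Ioc]
      exact ⟨⟨hp.1.1.1, Nat.le_floor hp.2⟩, hp.1.2⟩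
    · intro p hp _
      exact Real.log_natCast_nonneg p
  · have h2 : S.filter (fun p : ℕ => ¬ (p : ℝ) ≤ Real.exp u) ⊆ PB u η := by
      intro p hp
      rw [mem_filter, hS, mem_filter, mem_Ioc] at hp
      rw [PB, mem_filter, mem_Icc]
      exact ⟨⟨hp.1.1.1, hp.1.1.2⟩, hp.1.2, not_le.1 hp.2⟩
    have h3 : ∀ p ∈ S.filter (fun p : ℕ => ¬ (p : ℝ) ≤ Real.exp u),
        Real.log p ≤ u + η := by
      intro p hp
      rw [mem_filter, hS, mem_filter, mem_Ioc] at hp
      have h4 : (p : ℝ) ≤ Real.exp (u + η) := (Nat.le_floor_iff (Real.exp_pos _).le).1 hp.1.1.2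
      have h5 : (0 : ℝ) < p := by exact_mod_cast hp.1.1.1
      exact (Real.log_le_iff_le_exp h5).2 h4
    calc ∑ p ∈ S.filter (fun p : ℕ => ¬ (p : ℝ) ≤ Real.exp u), Real.log p
        ≤ (S.filter (fun p : ℕ => ¬ (p : ℝ) ≤ Real.exp u)).card * (u + η) := by
          rw [← nsmul_eq_mul]
          exact sum_le_card_nsmul _ _ _ h3
      _ ≤ (PB u η).card * (u + η) :=
          mul_le_mul_of_nonneg_right (by exact_mod_cast card_le_card h2) h0u

/-- `θ x = x (1 + o(1))` in the form `|θ x - x| ≤ δ x` for large real `x`. -/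
lemma theta_close (δ : ℝ) (hδ : 0 < δ) : ∃ X : ℝ, 1 ≤ X ∧ ∀ x : ℝ, X ≤ x →
    |Chebyshev.theta x - x| ≤ δ * x := by
  obtain ⟨C, hC, h⟩ := Pool.Agent.H442R2.EHI.PntErrAux.thetaU 1
  refine ⟨max (max 3 (Real.exp (2 * C / δ) + 1)) (2 / δ), ?_, fun x hx => ?_⟩
  · exact le_trans (by norm_num) ((le_max_left (3 : ℝ) _).trans (le_max_left _ _))
  have hx3 : 3 ≤ x := ((le_max_left (3 : ℝ) _).trans (le_max_left _ _)).trans hx
  have hxe : Real.exp (2 * C / δ) + 1 ≤ x := ((le_max_right (3 : ℝ) _).trans (le_max_left _ _)).trans hx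
  have hxd : 2 / δ ≤ x := (le_max_right _ _).trans hx
  set N := ⌊x⌋₊ with hN
  have hx0 : 0 ≤ x := by linarith
  have hN1 : (N : ℝ) ≤ x := Nat.floor_le hx0
  have hN2 : x < N + 1 := Nat.lt_floor_add_one x
  have hN3 : 2 ≤ N := Nat.le_floor (by push_cast; linarith)
  have hth : Chebyshev.theta x = Chebyshev.theta (N : ℝ) := by
    unfold Chebyshev.theta
    rw [Nat.floor_natCast]
  have hNe : Real.exp (2 * C / δ) ≤ N := by linarith
  have hNpos : (0 : ℝ) < N := by exact_mod_cast (by omega : 0 < N)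
  have hlog : 2 * C / δ ≤ Real.log N := (Real.le_log_iff_exp_le hNpos).2 hNe
  have hlog0 : 0 < Real.log N := lt_of_lt_of_le (by positivity) hlog
  have h1 := h N hN3
  rw [pow_one] at h1
  have h2 : C * (N / Real.log N) ≤ δ / 2 * N := by
    rw [← mul_div_assoc, div_le_iff₀ hlog0]
    have h3 : 2 * C ≤ Real.log N * δ := (div_le_iff₀ hδ).1 hlog
    nlinarith
  have h4 : 2 ≤ x * δ := (div_le_iff₀ hδ).1 hxd
  rw [hth]
  rw [abs_le] at h1 ⊢
  constructor
  · nlinarith [h1.1]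
  · nlinarith [h1.2]

theorem t_PNTB : S_PNTB := by
  intro η hη hη1
  obtain ⟨X, hX1, hX⟩ := theta_close (η ^ 2 / 2) (by positivity)
  refine ⟨max 1 (Real.log X), le_max_left _ _, fun u hu => ?_⟩
  have hu1 : 1 ≤ u := (le_max_left _ _).trans hu
  have huX : X ≤ Real.exp u :=
    (Real.log_le_iff_le_exp (by linarith)).1 ((le_max_right _ _).trans hu)
  have hlt : Real.exp u ≤ Real.exp (u + η) := Real.exp_le_exp.2 (by linarith)
  have h1 := hX _ huX
  have h2 := hX _ (huX.trans hlt)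
  have h3 := theta_le_PB u η (by linarith)
  have hpos : 0 < u + η := by linarith
  rw [← mul_div_assoc, div_le_iff₀ hpos]
  have hE : 0 < Real.exp u := Real.exp_pos u
  have hadd : Real.exp (u + η) = Real.exp u * Real.exp η := Real.exp_add u η
  have hge : 1 + η ≤ Real.exp η := by
    have := Real.add_one_le_exp η
    linarith
  have hlow : Real.exp u * (1 + η) ≤ Real.exp (u + η) := by
    rw [hadd]
    exact mul_le_mul_of_nonneg_left hge hE.le
  -- `e ^ u ≤ (1 - η + η ^ 2) e ^ (u + η)`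
  have hup : Real.exp u ≤ (1 - η + η ^ 2) * Real.exp (u + η) := by
    have h5 : (1 - η + η ^ 2) * (Real.exp u * (1 + η)) ≤ (1 - η + η ^ 2) * Real.exp (u + η) :=
      mul_le_mul_of_nonneg_left hlow (by nlinarith)
    have h6 : (1 - η + η ^ 2) * (Real.exp u * (1 + η)) = Real.exp u * (1 + η ^ 3) := by ring
    rw [h6] at h5
    nlinarith [pow_pos hη 3]
  rw [abs_le] at h1 h2
  have h7 := h1.2
  have h8 := h2.1
  have h9 : η ^ 2 / 2 * Real.exp u ≤ η ^ 2 / 2 * Real.exp (u + η) :=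
    mul_le_mul_of_nonneg_left hlt (by positivity)
  nlinarith

end Pool.Agent.D0H31.AB
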